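import Pool.Agent.H78.GX.H78.GS.TA3

set_option autoImplicit false

open Finset Pool.Agent.H6.N4D Pool.Agent.H78.GX.H6.N4D Pool.Agent.H78.GX Pool.Agent.H78.GX.H78.GS

namespace Pool.Agent.H78.GX.H50.GS3

theorem pf_QCO : T_QCO := by
  intro h η N Z hh hN hη hZ
  have hNR : (1 : ℝ) ≤ N := by exact_mod_cast hN
  have hE : 0 < 1 - Real.exp (-(h * N)) := by
    have : Real.exp (-(h * N)) < 1 := by
      rw [Real.exp_lt_one_iff]
      have := mul_pos hh (lt_of_lt_of_le one_pos hNR)
      linarith
    linarith
  obtain ⟨τ, hτ⟩ : ∃ τ : ℝ, τ = Z N / (1 - Real.exp (-(h * N))) := ⟨_, rfl⟩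
  have hτN : τ * (1 - Real.exp (-(h * N))) = Z N := by
    rw [hτ]; field_simp
  refine ⟨τ, ?_, ?_⟩
  · rw [← hτN, abs_mul, abs_of_pos hE]
  obtain ⟨U, hU⟩ : ∃ U : ℕ → ℝ, ∀ D : ℕ, U D = Z D - τ * (1 - Real.exp (-(h * D))) :=
    ⟨_, fun _ => rfl⟩
  have hUN : U N = 0 := by rw [hU, hτN]; ring
  have hco : ∀ D D' : ℕ, D + D' ≤ N → |U (D + D') - U D - Real.exp (-(h * D)) * U D'| ≤ η := by
    intro D D' hD
    have h1 := hZ D D' hD
    have h2 : Real.exp (-(h * ((D + D' : ℕ) : ℝ))) =
        Real.exp (-(h * D)) * Real.exp (-(h * D')) := by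
      rw [← Real.exp_add]; congr 1; push_cast; ring
    have h3 : U (D + D') - U D - Real.exp (-(h * D)) * U D' =
        Z (D + D') - Z D - Real.exp (-(h * D)) * Z D' := by
      rw [hU, hU, hU, h2]; ring
    rw [h3]; exact h1
  have hmain : ∀ D : ℕ, D ≤ N → |U D| ≤ 5 * η := by
    have hpos : ∀ D : ℕ, 0 < Real.exp (-(h * D)) := fun D => Real.exp_pos _
    have hle1 : ∀ D : ℕ, Real.exp (-(h * D)) ≤ 1 := by
      intro D
      rw [Real.exp_le_one_iff]
      have : 0 ≤ h * (D : ℝ) := mul_nonneg hh.le (Nat.cast_nonneg D)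
      linarith
    by_cases hc : 1 ≤ h * N
    · intro D hD
      have h1 := hco D (N - D) (by omega)
      have h2 := hco (N - D) D (by omega)
      rw [show D + (N - D) = N by omega, hUN] at h1
      rw [show N - D + D = N by omega, hUN] at h2
      have h3 : Real.exp (-(h * D)) * Real.exp (-(h * ((N - D : ℕ) : ℝ))) =
          Real.exp (-(h * N)) := by
        rw [← Real.exp_add]; congr 1
        rw [Nat.cast_sub hD]; ring
      have h4 : Real.exp (-(h * N)) ≤ 0.4 := by
        have h5 : Real.exp (-(h * N)) ≤ Real.exp (-1) := Real.exp_le_exp.mpr (by linarith)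
        have h6 : Real.exp (-1) ≤ 0.4 := by
          rw [Real.exp_neg]
          have h7 := Real.exp_one_gt_d9
          rw [inv_le_comm₀ (Real.exp_pos 1) (by norm_num)]
          norm_num
          linarith
        linarith
      -- U D (1 - exp(-hN)) is small
      have h8 : |U D * (1 - Real.exp (-(h * N)))| ≤ 2 * η := by
        have e1 : U D * (1 - Real.exp (-(h * N))) =
            -(0 - U D - Real.exp (-(h * D)) * U (N - D)) +
              Real.exp (-(h * D)) *
                (0 - U (N - D) - Real.exp (-(h * ((N - D : ℕ) : ℝ))) * U D) := by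
          rw [← h3]; ring
        rw [e1]
        have e2 : |Real.exp (-(h * D)) *
                (0 - U (N - D) - Real.exp (-(h * ((N - D : ℕ) : ℝ))) * U D)| ≤ 1 * η := by
          rw [abs_mul, abs_of_pos (hpos D)]
          exact mul_le_mul (hle1 D) h2 (abs_nonneg _) zero_le_one
        calc _ ≤ |-(0 - U D - Real.exp (-(h * D)) * U (N - D))| + _ := abs_add_le _ _
          _ ≤ η + 1 * η := by
              rw [abs_neg]; exact add_le_add h1 e2
          _ = 2 * η := by ring
      rw [abs_mul, abs_of_pos hE] at h8
      have h9 : 0 ≤ |U D| := abs_nonneg _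
      nlinarith
    · push Not at hc
      obtain ⟨D0, hD0, hmax⟩ := Finset.exists_max_image (Finset.range (N + 1)) (fun D => |U D|)
        ⟨0, by simp⟩
      have hm : ∀ D : ℕ, D ≤ N → |U D| ≤ |U D0| := fun D hD =>
        hmax D (Finset.mem_range.mpr (by omega))
      have hhalf : ∀ D : ℕ, 2 * D ≤ N → 1.6 * |U D| ≤ |U D0| + η := by
        intro D hD
        have h1 := hco D D (by omega)
        have hDR : (2 : ℝ) * D ≤ N := by exact_mod_cast hD
        have h2 : (0.6 : ℝ) ≤ Real.exp (-(h * D)) := by
          have h3 : Real.exp (-(1 / 2 : ℝ)) ≤ Real.exp (-(h * D)) := by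
            apply Real.exp_le_exp.mpr
            nlinarith
          have h4 : (0.6 : ℝ) ≤ Real.exp (-(1 / 2 : ℝ)) := by
            have h5 : Real.exp (-(1 / 2 : ℝ)) * Real.exp (-(1 / 2 : ℝ)) = Real.exp (-1) := by
              rw [← Real.exp_add]; norm_num
            have h6 : (0.36 : ℝ) ≤ Real.exp (-1) := by
              rw [Real.exp_neg]
              have h7 := Real.exp_one_lt_d9
              rw [le_inv_comm₀ (by norm_num) (Real.exp_pos 1)]
              norm_num
              linarith
            by_contra hcon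
            push Not at hcon
            have h8 := Real.exp_pos (-(1 / 2 : ℝ))
            nlinarith
          linarith
        have h3 : |(1 + Real.exp (-(h * D))) * U D| ≤ |U (D + D)| + η := by
          have e1 : (1 + Real.exp (-(h * D))) * U D =
              U (D + D) - (U (D + D) - U D - Real.exp (-(h * D)) * U D) := by ring
          rw [e1]
          exact (abs_sub _ _).trans (by linarith)
        rw [abs_mul, abs_of_pos (by linarith [hpos D])] at h3
        have h4 := hm (D + D) (by omega)
        have h9 : 0 ≤ |U D| := abs_nonneg _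
        nlinarith
      have hM : |U D0| ≤ 5 * η := by
        have hD0' : D0 ≤ N := by have := Finset.mem_range.mp hD0; omega
        by_cases h2 : 2 * D0 ≤ N
        · have := hhalf D0 h2
          nlinarith [abs_nonneg (U D0)]
        · have h3 := hco D0 (N - D0) (by omega)
          rw [show D0 + (N - D0) = N by omega, hUN] at h3
          have h4 := hhalf (N - D0) (by omega)
          have h5 : |U D0| ≤ |U (N - D0)| + η := by
            have e1 : U D0 = -(0 - U D0 - Real.exp (-(h * D0)) * U (N - D0)) -
                Real.exp (-(h * D0)) * U (N - D0) := by ring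
            have e2 : |Real.exp (-(h * D0)) * U (N - D0)| ≤ 1 * |U (N - D0)| := by
              rw [abs_mul, abs_of_pos (hpos D0)]
              exact mul_le_mul_of_nonneg_right (hle1 D0) (abs_nonneg _)
            calc |U D0| = _ := by rw [← e1]
              _ ≤ |-(0 - U D0 - Real.exp (-(h * D0)) * U (N - D0))| + _ := abs_sub _ _
              _ ≤ η + 1 * |U (N - D0)| := by rw [abs_neg]; exact add_le_add h3 e2
              _ = _ := by ring
          nlinarith [abs_nonneg (U D0)]
      intro D hD
      exact (hm D hD).trans hM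
  intro D hD
  rw [← hU]
  exact hmain D hD

end Pool.Agent.H78.GX.H50.GS3
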